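import Mathlib

set_option autoImplicit false

/-!
# Neumann Poincare inequality for a cube, iterated interval integrals
-/

namespace Pool.Agent.Helper25.PW

open MeasureTheory Filter

theorem poi_var (g : ℝ → ℝ) (hg : Continuous g) (a l : ℝ) (hl : 0 < l) :
    ∫ t in a..(a + l), (g t - l⁻¹ * ∫ t in a..(a + l), g t) ^ 2 =
      (∫ t in a..(a + l), g t ^ 2) - l⁻¹ * (∫ t in a..(a + l), g t) ^ 2 := by
  generalize hm : l⁻¹ * ∫ t in a..(a + l), g t = m
  have hI : ∫ t in a..(a + l), g t = l * m := by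
    rw [← hm]
    field_simp
  have e : (fun t => (g t - m) ^ 2) = fun t => (g t ^ 2 - 2 * m * g t) + m ^ 2 := by
    funext t
    ring
  have i1 : IntervalIntegrable (fun t => g t ^ 2) volume a (a + l) :=
    (hg.pow 2).intervalIntegrable _ _
  have i2 : IntervalIntegrable (fun t => 2 * m * g t) volume a (a + l) :=
    (continuous_const.mul hg).intervalIntegrable _ _
  have i3 : IntervalIntegrable (fun _ : ℝ => m ^ 2) volume a (a + l) :=
    continuous_const.intervalIntegrable _ _
  rw [e, intervalIntegral.integral_add (i1.sub i2) i3, intervalIntegral.integral_sub i1 i2,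
    intervalIntegral.integral_const_mul, intervalIntegral.integral_const, hI, smul_eq_mul]
  field_simp
  ring

theorem poi_cs (g : ℝ → ℝ) (hg : Continuous g) (a l : ℝ) (hl : 0 < l) :
    (∫ t in a..(a + l), g t) ^ 2 ≤ l * ∫ t in a..(a + l), g t ^ 2 := by
  have h0 : 0 ≤ ∫ t in a..(a + l), (g t - l⁻¹ * ∫ t in a..(a + l), g t) ^ 2 :=
    intervalIntegral.integral_nonneg (by linarith) (fun t _ => sq_nonneg _)
  rw [poi_var g hg a l hl] at h0
  have h1 : l⁻¹ * (∫ t in a..(a + l), g t) ^ 2 ≤ ∫ t in a..(a + l), g t ^ 2 := by linarith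
  calc (∫ t in a..(a + l), g t) ^ 2 = l * (l⁻¹ * (∫ t in a..(a + l), g t) ^ 2) := by
        field_simp
    _ ≤ l * ∫ t in a..(a + l), g t ^ 2 := mul_le_mul_of_nonneg_left h1 hl.le

theorem poi_const (a l M : ℝ) : ∫ _t in a..(a + l), M = l * M := by
  rw [intervalIntegral.integral_const, smul_eq_mul]
  ring

theorem poi_one (g : ℝ → ℝ) (hg : Continuous g) (a l M : ℝ) (hl : 0 < l)
    (h : ∀ s ∈ Set.Icc a (a + l), ∀ t ∈ Set.Icc a (a + l), (g s - g t) ^ 2 ≤ M) :
    ∫ t in a..(a + l), g t ^ 2 ≤ l⁻¹ * (∫ t in a..(a + l), g t) ^ 2 + l * M := by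
  have h1 := poi_var g hg a l hl
  have hal : a ≤ a + l := by linarith
  have h2 : ∀ s ∈ Set.Icc a (a + l), (g s - l⁻¹ * ∫ t in a..(a + l), g t) ^ 2 ≤ M := by
    intro s hs
    have h3 : g s - l⁻¹ * ∫ t in a..(a + l), g t =
        l⁻¹ * ∫ t in a..(a + l), (g s - g t) := by
      rw [intervalIntegral.integral_sub (continuous_const.intervalIntegrable _ _)
        (hg.intervalIntegrable _ _), poi_const]
      field_simp
    rw [h3, mul_pow]
    have h4 := poi_cs (fun t => g s - g t) (continuous_const.sub hg) a l hl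
    have h5 : ∫ t in a..(a + l), (g s - g t) ^ 2 ≤ ∫ _t in a..(a + l), M :=
      intervalIntegral.integral_mono_on hal
        (((continuous_const.sub hg).pow 2).intervalIntegrable _ _)
        (continuous_const.intervalIntegrable _ _) (fun t ht => h s hs t ht)
    rw [poi_const] at h5
    have h6 : (∫ t in a..(a + l), (g s - g t)) ^ 2 ≤ l * (l * M) :=
      h4.trans (mul_le_mul_of_nonneg_left h5 hl.le)
    calc (l⁻¹) ^ 2 * (∫ t in a..(a + l), (g s - g t)) ^ 2 ≤ (l⁻¹) ^ 2 * (l * (l * M)) :=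
          mul_le_mul_of_nonneg_left h6 (sq_nonneg _)
      _ = M := by field_simp
  have h3 : ∫ t in a..(a + l), (g t - l⁻¹ * ∫ t in a..(a + l), g t) ^ 2 ≤
      ∫ _t in a..(a + l), M :=
    intervalIntegral.integral_mono_on hal
      (((hg.sub continuous_const).pow 2).intervalIntegrable _ _)
      (continuous_const.intervalIntegrable _ _) h2
  rw [poi_const, h1] at h3
  linarith

theorem poi_ftc (g g' : ℝ → ℝ) (hd : ∀ t, HasDerivAt g (g' t) t) (hg' : Continuous g')
    (a l : ℝ) (hl : 0 < l) :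
    ∀ s ∈ Set.Icc a (a + l), ∀ t ∈ Set.Icc a (a + l),
      (g s - g t) ^ 2 ≤ l * ∫ x in a..(a + l), g' x ^ 2 := by
  have hal : a ≤ a + l := by linarith
  have hnn : 0 ≤ ∫ x in a..(a + l), g' x ^ 2 :=
    intervalIntegral.integral_nonneg hal (fun x _ => sq_nonneg _)
  have key : ∀ s t, a ≤ t → t < s → s ≤ a + l →
      (g s - g t) ^ 2 ≤ l * ∫ x in a..(a + l), g' x ^ 2 := by
    intro s t h1 h2 h3
    have h4 : ∫ x in t..s, g' x = g s - g t :=
      intervalIntegral.integral_eq_sub_of_hasDerivAt (fun x _ => hd x)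
        (hg'.intervalIntegrable _ _)
    have h5 := poi_cs g' hg' t (s - t) (by linarith)
    rw [show t + (s - t) = s by ring, h4] at h5
    have h6 : ∫ x in t..s, g' x ^ 2 ≤ ∫ x in a..(a + l), g' x ^ 2 :=
      intervalIntegral.integral_mono_interval h1 h2.le h3
        (Eventually.of_forall (fun x => sq_nonneg _)) ((hg'.pow 2).intervalIntegrable _ _)
    have h7 : 0 ≤ ∫ x in t..s, g' x ^ 2 :=
      intervalIntegral.integral_nonneg h2.le (fun x _ => sq_nonneg _)
    calc (g s - g t) ^ 2 ≤ (s - t) * ∫ x in t..s, g' x ^ 2 := h5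
      _ ≤ l * ∫ x in t..s, g' x ^ 2 := mul_le_mul_of_nonneg_right (by linarith) h7
      _ ≤ _ := mul_le_mul_of_nonneg_left h6 hl.le
  intro s hs t ht
  rcases lt_trichotomy s t with h | h | h
  · have h8 := key t s hs.1 h ht.2
    calc (g s - g t) ^ 2 = (g t - g s) ^ 2 := by ring
      _ ≤ _ := h8
  · rw [h, sub_self]
    have h9 := mul_nonneg hl.le hnn
    calc (0:ℝ) ^ 2 = 0 := by norm_num
      _ ≤ _ := h9
  · exact key s t ht.1 h hs.2

theorem poi_swap (G : ℝ → ℝ → ℝ) (hG : Continuous (fun p : ℝ × ℝ => G p.1 p.2))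
    (a b c d : ℝ) :
    ∫ x in a..b, ∫ y in c..d, G x y = ∫ y in c..d, ∫ x in a..b, G x y := by
  apply intervalIntegral_intervalIntegral_swap
  have h1 : IntegrableOn (Function.uncurry G) (Set.uIcc a b ×ˢ Set.uIcc c d) :=
    ContinuousOn.integrableOn_compact (isCompact_uIcc.prod isCompact_uIcc)
      (Continuous.continuousOn hG)
  exact h1.mono_set (Set.prod_mono Set.uIoc_subset_uIcc Set.uIoc_subset_uIcc)

theorem poi_cpi {X : Type*} [TopologicalSpace X] (f : X → ℝ → ℝ)
    (hf : Continuous (fun p : X × ℝ => f p.1 p.2)) (a b : ℝ) :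
    Continuous (fun x => ∫ t in a..b, f x t) :=
  intervalIntegral.continuous_parametric_intervalIntegral_of_continuous' hf a b

/-- the inequality in three variables -/
theorem poi_three (f f0 f1 f2 : ℝ → ℝ → ℝ → ℝ)
    (hf : Continuous (fun p : ℝ × ℝ × ℝ => f p.1 p.2.1 p.2.2))
    (hf0 : Continuous (fun p : ℝ × ℝ × ℝ => f0 p.1 p.2.1 p.2.2))
    (hf1 : Continuous (fun p : ℝ × ℝ × ℝ => f1 p.1 p.2.1 p.2.2))
    (hf2 : Continuous (fun p : ℝ × ℝ × ℝ => f2 p.1 p.2.1 p.2.2))
    (d0 : ∀ a b c, HasDerivAt (fun t => f t b c) (f0 a b c) a)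
    (d1 : ∀ a b c, HasDerivAt (fun t => f a t c) (f1 a b c) b)
    (d2 : ∀ a b c, HasDerivAt (fun t => f a b t) (f2 a b c) c)
    (p q r l : ℝ) (hl : 0 < l) :
    ∫ a in p..(p + l), ∫ b in q..(q + l), ∫ c in r..(r + l), f a b c ^ 2 ≤
      (l⁻¹) ^ 3 * (∫ a in p..(p + l), ∫ b in q..(q + l), ∫ c in r..(r + l), f a b c) ^ 2 +
      l ^ 2 * ((∫ a in p..(p + l), ∫ b in q..(q + l), ∫ c in r..(r + l), f0 a b c ^ 2) +
        (∫ a in p..(p + l), ∫ b in q..(q + l), ∫ c in r..(r + l), f1 a b c ^ 2) +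
        (∫ a in p..(p + l), ∫ b in q..(q + l), ∫ c in r..(r + l), f2 a b c ^ 2)) := by
  have hpl : p ≤ p + l := by linarith
  have hql : q ≤ q + l := by linarith
  have hrl : r ≤ r + l := by linarith
  -- continuity facts for a general function
  have C3 : ∀ F : ℝ → ℝ → ℝ → ℝ, Continuous (fun p : ℝ × ℝ × ℝ => F p.1 p.2.1 p.2.2) →
      Continuous (fun y : ℝ × ℝ => ∫ c in r..(r + l), F y.1 y.2 c) := by
    intro F hF
    apply poi_cpi (fun (y : ℝ × ℝ) c => F y.1 y.2 c)
    exact hF.comp (Continuous.prodMk (continuous_fst.comp continuous_fst)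
      (Continuous.prodMk (continuous_snd.comp continuous_fst) continuous_snd))
  have C2 : ∀ F : ℝ → ℝ → ℝ → ℝ, Continuous (fun p : ℝ × ℝ × ℝ => F p.1 p.2.1 p.2.2) →
      Continuous (fun a : ℝ => ∫ b in q..(q + l), ∫ c in r..(r + l), F a b c) := by
    intro F hF
    exact poi_cpi (fun a b => ∫ c in r..(r + l), F a b c) (C3 F hF) q (q + l)
  have C1 : ∀ F : ℝ → ℝ → ℝ → ℝ, Continuous (fun p : ℝ × ℝ × ℝ => F p.1 p.2.1 p.2.2) →
      ∀ a, Continuous (fun b : ℝ => ∫ c in r..(r + l), F a b c) := by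
    intro F hF a
    exact (C3 F hF).comp (Continuous.prodMk continuous_const continuous_id)
  have C0 : ∀ F : ℝ → ℝ → ℝ → ℝ, Continuous (fun p : ℝ × ℝ × ℝ => F p.1 p.2.1 p.2.2) →
      ∀ a b, Continuous (fun c : ℝ => F a b c) := by
    intro F hF a b
    exact hF.comp (Continuous.prodMk continuous_const
      (Continuous.prodMk continuous_const continuous_id))
  have C0b : ∀ F : ℝ → ℝ → ℝ → ℝ, Continuous (fun p : ℝ × ℝ × ℝ => F p.1 p.2.1 p.2.2) →
      ∀ a c, Continuous (fun b : ℝ => F a b c) := by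
    intro F hF a c
    exact hF.comp (Continuous.prodMk continuous_const
      (Continuous.prodMk continuous_id continuous_const))
  have C0a : ∀ F : ℝ → ℝ → ℝ → ℝ, Continuous (fun p : ℝ × ℝ × ℝ => F p.1 p.2.1 p.2.2) →
      ∀ b c, Continuous (fun a : ℝ => F a b c) := by
    intro F hF b c
    exact hF.comp (Continuous.prodMk continuous_id
      (Continuous.prodMk continuous_const continuous_const))
  have S : ∀ F : ℝ → ℝ → ℝ → ℝ, Continuous (fun p : ℝ × ℝ × ℝ => F p.1 p.2.1 p.2.2) →
      Continuous (fun p : ℝ × ℝ × ℝ => F p.1 p.2.1 p.2.2 ^ 2) := fun F hF => hF.pow 2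
  -- names
  have hF1c := C3 f hf
  have hF2c := C2 f hf
  -- step 1
  have s1 : ∀ a b, ∫ c in r..(r + l), f a b c ^ 2 ≤
      l⁻¹ * (∫ c in r..(r + l), f a b c) ^ 2 + l * (l * ∫ c in r..(r + l), f2 a b c ^ 2) := by
    intro a b
    exact poi_one (fun c => f a b c) (C0 f hf a b) r l _ hl
      (poi_ftc (fun c => f a b c) (fun c => f2 a b c) (d2 a b) (C0 f2 hf2 a b) r l hl)
  -- step 2
  have s2 : ∀ a, ∫ b in q..(q + l), (∫ c in r..(r + l), f a b c) ^ 2 ≤
      l⁻¹ * (∫ b in q..(q + l), ∫ c in r..(r + l), f a b c) ^ 2 +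
      l * (l * (l * ∫ b in q..(q + l), ∫ c in r..(r + l), f1 a b c ^ 2)) := by
    intro a
    apply poi_one (fun b => ∫ c in r..(r + l), f a b c) (C1 f hf a) q l _ hl
    intro b hb b' hb'
    have e1 : (∫ c in r..(r + l), f a b c) - (∫ c in r..(r + l), f a b' c) =
        ∫ c in r..(r + l), (f a b c - f a b' c) :=
      (intervalIntegral.integral_sub ((C0 f hf a b).intervalIntegrable _ _)
        ((C0 f hf a b').intervalIntegrable _ _)).symm
    have e2 := poi_cs (fun c => f a b c - f a b' c) ((C0 f hf a b).sub (C0 f hf a b')) r l hl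
    have e3 : ∫ c in r..(r + l), (f a b c - f a b' c) ^ 2 ≤
        ∫ c in r..(r + l), (l * ∫ s in q..(q + l), f1 a s c ^ 2) := by
      apply intervalIntegral.integral_mono_on hrl
      · exact (((C0 f hf a b).sub (C0 f hf a b')).pow 2).intervalIntegrable _ _
      · apply Continuous.intervalIntegrable
        apply continuous_const.mul
        apply poi_cpi (fun c s => f1 a s c ^ 2)
        exact (hf1.comp (Continuous.prodMk continuous_const
          (Continuous.prodMk continuous_snd continuous_fst))).pow 2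
      · intro c _
        exact poi_ftc (fun s => f a s c) (fun s => f1 a s c) (fun s => d1 a s c)
          (C0b f1 hf1 a c) q l hl b hb b' hb'
    have e4 : ∫ c in r..(r + l), (l * ∫ s in q..(q + l), f1 a s c ^ 2) =
        l * ∫ s in q..(q + l), ∫ c in r..(r + l), f1 a s c ^ 2 := by
      rw [intervalIntegral.integral_const_mul]
      congr 1
      exact poi_swap (fun c s => f1 a s c ^ 2) ((hf1.comp (Continuous.prodMk continuous_const
          (Continuous.prodMk continuous_snd continuous_fst))).pow 2) _ _ _ _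
    rw [e4] at e3
    show ((∫ c in r..(r + l), f a b c) - (∫ c in r..(r + l), f a b' c)) ^ 2 ≤ _
    rw [e1]
    exact e2.trans (mul_le_mul_of_nonneg_left e3 hl.le)
  -- step 3
  have s3 : ∫ a in p..(p + l), (∫ b in q..(q + l), ∫ c in r..(r + l), f a b c) ^ 2 ≤
      l⁻¹ * (∫ a in p..(p + l), ∫ b in q..(q + l), ∫ c in r..(r + l), f a b c) ^ 2 +
      l * (l * (l * (l *
        ∫ a in p..(p + l), ∫ b in q..(q + l), ∫ c in r..(r + l), f0 a b c ^ 2))) := by
    apply poi_one (fun a => ∫ b in q..(q + l), ∫ c in r..(r + l), f a b c) (C2 f hf) p l _ hl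
    intro a ha a' ha'
    have e0 : ∀ b, (∫ c in r..(r + l), f a b c) - (∫ c in r..(r + l), f a' b c) =
        ∫ c in r..(r + l), (f a b c - f a' b c) := by
      intro b
      exact (intervalIntegral.integral_sub ((C0 f hf a b).intervalIntegrable _ _)
        ((C0 f hf a' b).intervalIntegrable _ _)).symm
    have e1 : (∫ b in q..(q + l), ∫ c in r..(r + l), f a b c) -
        (∫ b in q..(q + l), ∫ c in r..(r + l), f a' b c) =
        ∫ b in q..(q + l), ((∫ c in r..(r + l), f a b c) - (∫ c in r..(r + l), f a' b c)) :=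
      (intervalIntegral.integral_sub ((C1 f hf a).intervalIntegrable _ _)
        ((C1 f hf a').intervalIntegrable _ _)).symm
    have e2 := poi_cs (fun b => (∫ c in r..(r + l), f a b c) - (∫ c in r..(r + l), f a' b c))
      ((C1 f hf a).sub (C1 f hf a')) q l hl
    have e3 : ∀ b, ((∫ c in r..(r + l), f a b c) - (∫ c in r..(r + l), f a' b c)) ^ 2 ≤
        l * (l * ∫ s in p..(p + l), ∫ c in r..(r + l), f0 s b c ^ 2) := by
      intro b
      rw [e0 b]
      have g2 := poi_cs (fun c => f a b c - f a' b c) ((C0 f hf a b).sub (C0 f hf a' b)) r l hl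
      have g3 : ∫ c in r..(r + l), (f a b c - f a' b c) ^ 2 ≤
          ∫ c in r..(r + l), (l * ∫ s in p..(p + l), f0 s b c ^ 2) := by
        apply intervalIntegral.integral_mono_on hrl
        · exact (((C0 f hf a b).sub (C0 f hf a' b)).pow 2).intervalIntegrable _ _
        · apply Continuous.intervalIntegrable
          apply continuous_const.mul
          apply poi_cpi (fun c s => f0 s b c ^ 2)
          exact (hf0.comp (Continuous.prodMk continuous_snd
            (Continuous.prodMk continuous_const continuous_fst))).pow 2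
        · intro c _
          exact poi_ftc (fun s => f s b c) (fun s => f0 s b c) (fun s => d0 s b c)
            (C0a f0 hf0 b c) p l hl a ha a' ha'
      have g4 : ∫ c in r..(r + l), (l * ∫ s in p..(p + l), f0 s b c ^ 2) =
          l * ∫ s in p..(p + l), ∫ c in r..(r + l), f0 s b c ^ 2 := by
        rw [intervalIntegral.integral_const_mul]
        congr 1
        exact poi_swap (fun c s => f0 s b c ^ 2) ((hf0.comp (Continuous.prodMk continuous_snd
            (Continuous.prodMk continuous_const continuous_fst))).pow 2) _ _ _ _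
      rw [g4] at g3
      exact g2.trans (mul_le_mul_of_nonneg_left g3 hl.le)
    have hJc : Continuous (fun y : ℝ × ℝ => ∫ c in r..(r + l), f0 y.1 y.2 c ^ 2) :=
      C3 (fun a b c => f0 a b c ^ 2) (S f0 hf0)
    have hJc' : Continuous (fun b : ℝ => ∫ s in p..(p + l), ∫ c in r..(r + l), f0 s b c ^ 2) := by
      apply poi_cpi (fun b s => ∫ c in r..(r + l), f0 s b c ^ 2)
      exact hJc.comp (Continuous.prodMk continuous_snd continuous_fst)
    have e4 : ∫ b in q..(q + l),
        ((∫ c in r..(r + l), f a b c) - (∫ c in r..(r + l), f a' b c)) ^ 2 ≤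
        ∫ b in q..(q + l), (l * (l * ∫ s in p..(p + l), ∫ c in r..(r + l), f0 s b c ^ 2)) := by
      apply intervalIntegral.integral_mono_on hql
      · exact (((C1 f hf a).sub (C1 f hf a')).pow 2).intervalIntegrable _ _
      · exact (continuous_const.mul (continuous_const.mul hJc')).intervalIntegrable _ _
      · intro b _
        exact e3 b
    have e5 : ∫ b in q..(q + l),
        (l * (l * ∫ s in p..(p + l), ∫ c in r..(r + l), f0 s b c ^ 2)) =
        l * (l * ∫ s in p..(p + l), ∫ b in q..(q + l), ∫ c in r..(r + l), f0 s b c ^ 2) := by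
      rw [intervalIntegral.integral_const_mul, intervalIntegral.integral_const_mul]
      congr 2
      exact poi_swap (fun b s => ∫ c in r..(r + l), f0 s b c ^ 2)
        (hJc.comp (Continuous.prodMk continuous_snd continuous_fst)) _ _ _ _
    rw [e5] at e4
    show ((∫ b in q..(q + l), ∫ c in r..(r + l), f a b c) -
        (∫ b in q..(q + l), ∫ c in r..(r + l), f a' b c)) ^ 2 ≤ _
    rw [e1]
    exact e2.trans (mul_le_mul_of_nonneg_left e4 hl.le)
  -- combine
  have t1 : ∫ a in p..(p + l), ∫ b in q..(q + l), ∫ c in r..(r + l), f a b c ^ 2 ≤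
      ∫ a in p..(p + l), ∫ b in q..(q + l), (l⁻¹ * (∫ c in r..(r + l), f a b c) ^ 2 +
        l * (l * ∫ c in r..(r + l), f2 a b c ^ 2)) := by
    have k1 : Continuous (fun y : ℝ × ℝ => l⁻¹ * (∫ c in r..(r + l), f y.1 y.2 c) ^ 2 +
        l * (l * ∫ c in r..(r + l), f2 y.1 y.2 c ^ 2)) :=
      (continuous_const.mul (hF1c.pow 2)).add
        (continuous_const.mul (continuous_const.mul
          (C3 (fun a b c => f2 a b c ^ 2) (S f2 hf2))))
    apply intervalIntegral.integral_mono_on hpl
    · exact (C2 (fun a b c => f a b c ^ 2) (S f hf)).intervalIntegrable _ _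
    · exact (poi_cpi (fun a b => l⁻¹ * (∫ c in r..(r + l), f a b c) ^ 2 +
        l * (l * ∫ c in r..(r + l), f2 a b c ^ 2)) k1 q (q + l)).intervalIntegrable _ _
    · intro a _
      apply intervalIntegral.integral_mono_on hql
      · exact (C1 (fun a b c => f a b c ^ 2) (S f hf) a).intervalIntegrable _ _
      · exact (k1.comp (Continuous.prodMk continuous_const continuous_id)).intervalIntegrable _ _
      · intro b _
        exact s1 a b
  have hF1sq : Continuous (fun y : ℝ × ℝ => (∫ c in r..(r + l), f y.1 y.2 c) ^ 2) := hF1c.pow 2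
  have hF1sqb : ∀ a, Continuous (fun b : ℝ => (∫ c in r..(r + l), f a b c) ^ 2) := fun a =>
    (C1 f hf a).pow 2
  have hF1sqi : Continuous (fun a : ℝ => ∫ b in q..(q + l),
      (∫ c in r..(r + l), f a b c) ^ 2) :=
    poi_cpi (fun a b => (∫ c in r..(r + l), f a b c) ^ 2) hF1sq q (q + l)
  have t2 : ∫ a in p..(p + l), ∫ b in q..(q + l), (l⁻¹ * (∫ c in r..(r + l), f a b c) ^ 2 +
        l * (l * ∫ c in r..(r + l), f2 a b c ^ 2)) =
      l⁻¹ * (∫ a in p..(p + l), ∫ b in q..(q + l), (∫ c in r..(r + l), f a b c) ^ 2) +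
      l * (l * ∫ a in p..(p + l), ∫ b in q..(q + l), ∫ c in r..(r + l), f2 a b c ^ 2) := by
    have k2 : ∀ a, ∫ b in q..(q + l), (l⁻¹ * (∫ c in r..(r + l), f a b c) ^ 2 +
        l * (l * ∫ c in r..(r + l), f2 a b c ^ 2)) =
        l⁻¹ * (∫ b in q..(q + l), (∫ c in r..(r + l), f a b c) ^ 2) +
        l * (l * ∫ b in q..(q + l), ∫ c in r..(r + l), f2 a b c ^ 2) := by
      intro a
      rw [intervalIntegral.integral_add, intervalIntegral.integral_const_mul,
        intervalIntegral.integral_const_mul, intervalIntegral.integral_const_mul]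
      · exact (continuous_const.mul (hF1sqb a)).intervalIntegrable _ _
      · exact (continuous_const.mul (continuous_const.mul
          (C1 (fun a b c => f2 a b c ^ 2) (S f2 hf2) a))).intervalIntegrable _ _
    rw [intervalIntegral.integral_congr (fun a _ => k2 a), intervalIntegral.integral_add,
      intervalIntegral.integral_const_mul, intervalIntegral.integral_const_mul,
      intervalIntegral.integral_const_mul]
    · exact (continuous_const.mul hF1sqi).intervalIntegrable _ _
    · exact (continuous_const.mul (continuous_const.mul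
          (C2 (fun a b c => f2 a b c ^ 2) (S f2 hf2)))).intervalIntegrable _ _
  have t3 : ∫ a in p..(p + l), ∫ b in q..(q + l), (∫ c in r..(r + l), f a b c) ^ 2 ≤
      ∫ a in p..(p + l), (l⁻¹ * (∫ b in q..(q + l), ∫ c in r..(r + l), f a b c) ^ 2 +
      l * (l * (l * ∫ b in q..(q + l), ∫ c in r..(r + l), f1 a b c ^ 2))) := by
    apply intervalIntegral.integral_mono_on hpl
    · exact hF1sqi.intervalIntegrable _ _
    · exact ((continuous_const.mul (hF2c.pow 2)).add (continuous_const.mul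
        (continuous_const.mul (continuous_const.mul
          (C2 (fun a b c => f1 a b c ^ 2) (S f1 hf1)))))).intervalIntegrable _ _
    · intro a _
      exact s2 a
  have t4 : ∫ a in p..(p + l), (l⁻¹ * (∫ b in q..(q + l), ∫ c in r..(r + l), f a b c) ^ 2 +
      l * (l * (l * ∫ b in q..(q + l), ∫ c in r..(r + l), f1 a b c ^ 2))) =
      l⁻¹ * (∫ a in p..(p + l), (∫ b in q..(q + l), ∫ c in r..(r + l), f a b c) ^ 2) +
      l * (l * (l * ∫ a in p..(p + l), ∫ b in q..(q + l), ∫ c in r..(r + l),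
        f1 a b c ^ 2)) := by
    rw [intervalIntegral.integral_add, intervalIntegral.integral_const_mul,
      intervalIntegral.integral_const_mul, intervalIntegral.integral_const_mul,
      intervalIntegral.integral_const_mul]
    · exact (continuous_const.mul (hF2c.pow 2)).intervalIntegrable _ _
    · exact (continuous_const.mul (continuous_const.mul (continuous_const.mul
          (C2 (fun a b c => f1 a b c ^ 2) (S f1 hf1))))).intervalIntegrable _ _
  rw [t2] at t1
  rw [t4] at t3
  generalize ∫ a in p..(p + l), ∫ b in q..(q + l), ∫ c in r..(r + l), f a b c ^ 2 = L at *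
  generalize ∫ a in p..(p + l), ∫ b in q..(q + l), ∫ c in r..(r + l), f a b c = F3 at *
  generalize ∫ a in p..(p + l), ∫ b in q..(q + l), ∫ c in r..(r + l), f0 a b c ^ 2 = G0 at *
  generalize ∫ a in p..(p + l), ∫ b in q..(q + l), ∫ c in r..(r + l), f1 a b c ^ 2 = G1 at *
  generalize ∫ a in p..(p + l), ∫ b in q..(q + l), ∫ c in r..(r + l), f2 a b c ^ 2 = G2 at *
  generalize ∫ a in p..(p + l), ∫ b in q..(q + l), (∫ c in r..(r + l), f a b c) ^ 2 = U at *
  generalize ∫ a in p..(p + l), (∫ b in q..(q + l), ∫ c in r..(r + l), f a b c) ^ 2 = V at *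
  have hli : 0 < l⁻¹ := inv_pos.mpr hl
  have u1 : l⁻¹ * U ≤ l⁻¹ * (l⁻¹ * V + l * (l * (l * G1))) :=
    mul_le_mul_of_nonneg_left t3 hli.le
  have u2 : l⁻¹ * (l⁻¹ * V) ≤ l⁻¹ * (l⁻¹ * (l⁻¹ * F3 ^ 2 + l * (l * (l * (l * G0))))) :=
    mul_le_mul_of_nonneg_left (mul_le_mul_of_nonneg_left s3 hli.le) hli.le
  have u3 : l⁻¹ * (l⁻¹ * V + l * (l * (l * G1))) = l⁻¹ * (l⁻¹ * V) + l ^ 2 * G1 := by
    field_simp
  have u4 : l⁻¹ * (l⁻¹ * (l⁻¹ * F3 ^ 2 + l * (l * (l * (l * G0))))) =
      (l⁻¹) ^ 3 * F3 ^ 2 + l ^ 2 * G0 := by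
    field_simp
  rw [u3] at u1
  rw [u4] at u2
  calc L ≤ l⁻¹ * U + l * (l * G2) := t1
    _ ≤ ((l⁻¹) ^ 3 * F3 ^ 2 + l ^ 2 * G0) + l ^ 2 * G1 + l * (l * G2) := by linarith
    _ = _ := by ring

end Pool.Agent.Helper25.PW
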