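import Pool.Agent.Helper95.PW.Stmts
import Pool.Agent.Helper25.PW.PoiOne

set_option autoImplicit false

/-!
# Neumann Poincare inequality for a cube in one of the variables
-/

namespace Pool.Agent.Helper25.PW

open MeasureTheory Filter Pool.Agent.Helper95.PW

theorem poi_vec_cont : Continuous (fun p : ℝ × ℝ × ℝ => (![p.1, p.2.1, p.2.2] : R3)) := by
  refine continuous_pi fun i => ?_
  match i with
  | 0 => exact continuous_fst
  | 1 => exact continuous_fst.comp continuous_snd
  | 2 => exact continuous_snd.comp continuous_snd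

/-- splitting the coordinates of space -/
def poiE : R3 ≃ᵐ ℝ × (ℝ × ℝ) :=
  (MeasurableEquiv.piFinSuccAbove (fun _ : Fin 3 => ℝ) 0).trans
    (MeasurableEquiv.prodCongr (MeasurableEquiv.refl ℝ) MeasurableEquiv.finTwoArrow)

theorem poiE_apply (y : R3) : poiE y = (y 0, (y 1, y 2)) := rfl

theorem poiE_mp : MeasurePreserving poiE volume volume := by
  have h1 := volume_preserving_piFinSuccAbove (fun _ : Fin 3 => ℝ) 0
  have h2 := (MeasurePreserving.id (volume : Measure ℝ)).prod (volume_preserving_finTwoArrow ℝ)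
  exact h2.comp h1

theorem poi_Ico (g : ℝ → ℝ) (a l : ℝ) (hl : 0 < l) :
    ∫ t in Set.Ico a (a + l), g t = ∫ t in a..(a + l), g t := by
  rw [integral_Ico_eq_integral_Ioc, ← intervalIntegral.integral_of_le (by linarith)]

theorem poi_cube_sub (c : R3) (l : ℝ) : cube c l ⊆ Set.Icc c (fun i => c i + l) := by
  intro y hy
  exact ⟨fun i => (hy i).1, fun i => (hy i).2.le⟩

theorem poi_cube_int (c : R3) (l : ℝ) (F : R3 → ℝ) (hF : Continuous F) :
    IntegrableOn F (cube c l) := by
  have h : IntegrableOn F (Set.Icc c (fun i => c i + l)) :=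
    hF.continuousOn.integrableOn_compact isCompact_Icc
  exact h.mono_set (poi_cube_sub c l)

/-- the integral over a cube as an iterated integral -/
theorem poi_cube (c : R3) (l : ℝ) (hl : 0 < l) (F : R3 → ℝ) (hF : Continuous F) :
    ∫ y in cube c l, F y = ∫ a in c 0..(c 0 + l), ∫ b in c 1..(c 1 + l),
      ∫ d in c 2..(c 2 + l), F ![a, b, d] := by
  have hbox : cube c l = poiE ⁻¹' (Set.Ico (c 0) (c 0 + l) ×ˢ
      (Set.Ico (c 1) (c 1 + l) ×ˢ Set.Ico (c 2) (c 2 + l))) := by
    ext y
    constructor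
    · intro hy
      exact ⟨⟨(hy 0).1, (hy 0).2⟩, ⟨(hy 1).1, (hy 1).2⟩, ⟨(hy 2).1, (hy 2).2⟩⟩
    · intro hy i
      obtain ⟨h0, h1, h2⟩ := hy
      match i with
      | 0 => exact ⟨h0.1, h0.2⟩
      | 1 => exact ⟨h1.1, h1.2⟩
      | 2 => exact ⟨h2.1, h2.2⟩
  have hFG : ∀ y : R3, F y = (fun p : ℝ × ℝ × ℝ => F ![p.1, p.2.1, p.2.2]) (poiE y) := by
    intro y
    rw [poiE_apply]
    congr 1
    funext i
    match i with
    | 0 => rfl
    | 1 => rfl
    | 2 => rfl
  have hG : Continuous (fun p : ℝ × ℝ × ℝ => F ![p.1, p.2.1, p.2.2]) := hF.comp poi_vec_cont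
  have h1 : ∫ y in cube c l, F y = ∫ y in cube c l,
      (fun p : ℝ × ℝ × ℝ => F ![p.1, p.2.1, p.2.2]) (poiE y) := by
    congr 1
    funext y
    exact hFG y
  have h2 := poiE_mp.setIntegral_preimage_emb poiE.measurableEmbedding
    (fun p : ℝ × ℝ × ℝ => F ![p.1, p.2.1, p.2.2])
    (Set.Ico (c 0) (c 0 + l) ×ˢ (Set.Ico (c 1) (c 1 + l) ×ˢ Set.Ico (c 2) (c 2 + l)))
  rw [h1, hbox]
  refine h2.trans ?_
  have i1 : IntegrableOn (fun p : ℝ × ℝ × ℝ => F ![p.1, p.2.1, p.2.2])
      (Set.Ico (c 0) (c 0 + l) ×ˢ (Set.Ico (c 1) (c 1 + l) ×ˢ Set.Ico (c 2) (c 2 + l)))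
      (volume.prod volume) := by
    have h : IntegrableOn (fun p : ℝ × ℝ × ℝ => F ![p.1, p.2.1, p.2.2])
        (Set.Icc (c 0) (c 0 + l) ×ˢ (Set.Icc (c 1) (c 1 + l) ×ˢ Set.Icc (c 2) (c 2 + l)))
        (volume.prod volume) :=
      hG.continuousOn.integrableOn_compact
        (isCompact_Icc.prod (isCompact_Icc.prod isCompact_Icc))
    exact h.mono_set (Set.prod_mono Set.Ico_subset_Icc_self
      (Set.prod_mono Set.Ico_subset_Icc_self Set.Ico_subset_Icc_self))
  rw [Measure.volume_eq_prod, setIntegral_prod _ i1, poi_Ico _ _ _ hl]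
  apply intervalIntegral.integral_congr
  intro a _
  have i2 : IntegrableOn (fun p : ℝ × ℝ => F ![a, p.1, p.2])
      (Set.Ico (c 1) (c 1 + l) ×ˢ Set.Ico (c 2) (c 2 + l)) (volume.prod volume) := by
    have h : IntegrableOn (fun p : ℝ × ℝ => F ![a, p.1, p.2])
        (Set.Icc (c 1) (c 1 + l) ×ˢ Set.Icc (c 2) (c 2 + l)) (volume.prod volume) :=
      (hG.comp (Continuous.prodMk continuous_const continuous_id)).continuousOn.integrableOn_compact
        (isCompact_Icc.prod isCompact_Icc)
    exact h.mono_set (Set.prod_mono Set.Ico_subset_Icc_self Set.Ico_subset_Icc_self)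
  show ∫ p in Set.Ico (c 1) (c 1 + l) ×ˢ Set.Ico (c 2) (c 2 + l), F ![a, p.1, p.2] = _
  rw [Measure.volume_eq_prod, setIntegral_prod _ i2, poi_Ico _ _ _ hl]
  apply intervalIntegral.integral_congr
  intro b _
  exact poi_Ico _ _ _ hl

/-- adding a multiple of a unit vector to the inserted coordinate -/
theorem poi_ins {m : ℕ} (k : Fin (m + 1)) (y : R3) (β : Fin m → R3) (i : Fin 3) (s : ℝ) :
    (k.insertNth (y + s • (Pi.single i (1:ℝ) : R3)) β : Cf (m + 1)) =
      k.insertNth y β + s • (Pi.single k (Pi.single i (1:ℝ) : R3) : Cf (m + 1)) := by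
  funext j
  rcases Fin.eq_self_or_eq_succAbove k j with h | ⟨j', h⟩
  · rw [h, Pi.add_apply, Pi.smul_apply, Pi.single_eq_same, Fin.insertNth_apply_same,
      Fin.insertNth_apply_same]
  · rw [h, Pi.add_apply, Pi.smul_apply, Pi.single_eq_of_ne (Fin.succAbove_ne k j'),
      Fin.insertNth_apply_succAbove, Fin.insertNth_apply_succAbove, smul_zero, add_zero]

theorem poi_path {m : ℕ} (k : Fin (m + 1)) (v : Cf (m + 1) → ℝ) (hv : ContDiff ℝ (⊤ : ℕ∞) v)
    (y : R3) (β : Fin m → R3) (i : Fin 3) (a : ℝ) :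
    HasDerivAt (fun t : ℝ => v (k.insertNth (y + (t - a) • (Pi.single i (1:ℝ) : R3)) β))
      (dv k i v (k.insertNth y β)) a := by
  have h0 : (fun t : ℝ => v (k.insertNth (y + (t - a) • (Pi.single i (1:ℝ) : R3)) β)) =
      v ∘ (fun t : ℝ => (k.insertNth y β : Cf (m + 1)) +
        (t - a) • (Pi.single k (Pi.single i (1:ℝ) : R3) : Cf (m + 1))) := by
    funext t
    rw [poi_ins]
    rfl
  have h1 : HasDerivAt (fun t : ℝ => (k.insertNth y β : Cf (m + 1)) +
        (t - a) • (Pi.single k (Pi.single i (1:ℝ) : R3) : Cf (m + 1)))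
      (Pi.single k (Pi.single i (1:ℝ) : R3) : Cf (m + 1)) a := by
    have h := (((hasDerivAt_id a).sub_const a).smul_const
      (Pi.single k (Pi.single i (1:ℝ) : R3) : Cf (m + 1))).const_add
      (k.insertNth y β : Cf (m + 1))
    rw [one_smul] at h
    exact h
  have h2 : HasFDerivAt v (fderiv ℝ v (k.insertNth y β : Cf (m + 1)))
      ((k.insertNth y β : Cf (m + 1)) +
        (a - a) • (Pi.single k (Pi.single i (1:ℝ) : R3) : Cf (m + 1))) := by
    rw [sub_self, zero_smul, add_zero]
    exact ((hv.differentiable (by simp)) _).hasFDerivAt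
  rw [h0]
  exact h2.comp_hasDerivAt a h1

theorem poi_dv_cont {n : ℕ} (k : Fin n) (i : Fin 3) (v : Cf n → ℝ)
    (hv : ContDiff ℝ (⊤ : ℕ∞) v) : Continuous (dv k i v) := by
  have h := hv.continuous_fderiv (by simp)
  exact h.clm_apply continuous_const

theorem poi_dv_supp {n : ℕ} (k : Fin n) (i : Fin 3) (v : Cf n → ℝ)
    (hs : HasCompactSupport v) : HasCompactSupport (dv k i v) := by
  have h : HasCompactSupport (fderiv ℝ v) := hs.fderiv ℝ
  exact h.comp_left (g := fun L : Cf n →L[ℝ] ℝ => L (Pi.single k (Pi.single i 1))) rfl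

/-- the inequality for one position of the other particles -/
theorem poi_fibre {m : ℕ} (k : Fin (m + 1)) (v : Cf (m + 1) → ℝ) (hv : ContDiff ℝ (⊤ : ℕ∞) v)
    (β : Fin m → R3) (c : R3) (l : ℝ) (hl : 0 < l) :
    ∫ y in cube c l, v (k.insertNth y β) ^ 2 ≤
      (l⁻¹) ^ 3 * (∫ y in cube c l, v (k.insertNth y β)) ^ 2 +
      l ^ 2 * ∫ y in cube c l, ∑ i, dv k i v (k.insertNth y β) ^ 2 := by
  have hins : Continuous (fun y : R3 => (k.insertNth y β : Cf (m + 1))) :=
    Continuous.finInsertNth k continuous_id continuous_const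
  have hvc : Continuous (fun y : R3 => v (k.insertNth y β)) := hv.continuous.comp hins
  have hdc : ∀ i, Continuous (fun y : R3 => dv k i v (k.insertNth y β)) := fun i =>
    (poi_dv_cont k i v hv).comp hins
  have hsum : ∫ y in cube c l, ∑ i, dv k i v (k.insertNth y β) ^ 2 =
      ∑ i, ∫ y in cube c l, dv k i v (k.insertNth y β) ^ 2 :=
    integral_finsetSum _ (fun i _ => poi_cube_int c l _ ((hdc i).pow 2))
  rw [hsum, Fin.sum_univ_three,
    poi_cube c l hl (fun y => v (k.insertNth y β) ^ 2) (hvc.pow 2),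
    poi_cube c l hl (fun y => v (k.insertNth y β)) hvc,
    poi_cube c l hl (fun y => dv k 0 v (k.insertNth y β) ^ 2) ((hdc 0).pow 2),
    poi_cube c l hl (fun y => dv k 1 v (k.insertNth y β) ^ 2) ((hdc 1).pow 2),
    poi_cube c l hl (fun y => dv k 2 v (k.insertNth y β) ^ 2) ((hdc 2).pow 2)]
  refine poi_three (fun a b d => v (k.insertNth ![a, b, d] β))
    (fun a b d => dv k 0 v (k.insertNth ![a, b, d] β))
    (fun a b d => dv k 1 v (k.insertNth ![a, b, d] β))
    (fun a b d => dv k 2 v (k.insertNth ![a, b, d] β))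
    (hvc.comp poi_vec_cont) ((hdc 0).comp poi_vec_cont) ((hdc 1).comp poi_vec_cont)
    ((hdc 2).comp poi_vec_cont) ?_ ?_ ?_ (c 0) (c 1) (c 2) l hl
  · intro a b d
    have h := poi_path k v hv ![a, b, d] β 0 a
    have e : (fun t : ℝ => v (k.insertNth ![t, b, d] β)) =
        fun t : ℝ => v (k.insertNth (![a, b, d] + (t - a) • (Pi.single 0 (1:ℝ) : R3)) β) := by
      funext t
      congr 2
      funext j
      match j with
      | 0 => simp
      | 1 => simp
      | 2 => simp
    rw [e]
    exact h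
  · intro a b d
    have h := poi_path k v hv ![a, b, d] β 1 b
    have e : (fun t : ℝ => v (k.insertNth ![a, t, d] β)) =
        fun t : ℝ => v (k.insertNth (![a, b, d] + (t - b) • (Pi.single 1 (1:ℝ) : R3)) β) := by
      funext t
      congr 2
      funext j
      match j with
      | 0 => simp
      | 1 => simp
      | 2 => simp
    rw [e]
    exact h
  · intro a b d
    have h := poi_path k v hv ![a, b, d] β 2 d
    have e : (fun t : ℝ => v (k.insertNth ![a, b, t] β)) =
        fun t : ℝ => v (k.insertNth (![a, b, d] + (t - d) • (Pi.single 2 (1:ℝ) : R3)) β) := by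
      funext t
      congr 2
      funext j
      match j with
      | 0 => simp
      | 1 => simp
      | 2 => simp
    rw [e]
    exact h

theorem poi_fub_int {m : ℕ} (k : Fin (m + 1)) (G : Cf (m + 1) → ℝ) (hG : Integrable G)
    (c : R3) (l : ℝ) : Integrable (fun z : R3 × (Fin m → R3) => G (k.insertNth z.1 z.2))
      ((volume.restrict (cube c l)).prod volume) := by
  have mp := volume_preserving_piFinSuccAbove (fun _ : Fin (m + 1) => R3) k
  have h1 : Integrable (fun z : R3 × (Fin m → R3) => G (k.insertNth z.1 z.2))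
      (volume.prod volume) := by
    have h2 := (mp.integrable_comp_emb
      (MeasurableEquiv.piFinSuccAbove (fun _ : Fin (m + 1) => R3) k).measurableEmbedding
      (g := fun z : R3 × (Fin m → R3) => G (k.insertNth z.1 z.2)))
    rw [Measure.volume_eq_prod] at h2
    apply h2.mp
    have h3 : (fun z : R3 × (Fin m → R3) => G (k.insertNth z.1 z.2)) ∘
        (MeasurableEquiv.piFinSuccAbove (fun _ : Fin (m + 1) => R3) k) = G := by
      funext x
      exact congrArg G ((MeasurableEquiv.piFinSuccAbove (fun _ : Fin (m + 1) => R3)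
        k).symm_apply_apply x)
    rw [h3]
    exact hG
  have h4 : (volume.restrict (cube c l)).prod (volume : Measure (Fin m → R3)) =
      (volume.prod volume).restrict (cube c l ×ˢ Set.univ) := by
    rw [← Measure.prod_restrict, Measure.restrict_univ]
  rw [h4]
  exact h1.restrict

theorem poi_fub {m : ℕ} (k : Fin (m + 1)) (G : Cf (m + 1) → ℝ) (c : R3) (l : ℝ)
    (hG : Integrable (fun z : R3 × (Fin m → R3) => G (k.insertNth z.1 z.2))
      ((volume.restrict (cube c l)).prod volume)) :
    ∫ x in {x : Cf (m + 1) | x k ∈ cube c l}, G x =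
      ∫ β : Fin m → R3, ∫ y in cube c l, G (k.insertNth y β) := by
  have mp := volume_preserving_piFinSuccAbove (fun _ : Fin (m + 1) => R3) k
  have hset : {x : Cf (m + 1) | x k ∈ cube c l} =
      (MeasurableEquiv.piFinSuccAbove (fun _ : Fin (m + 1) => R3) k) ⁻¹'
        (cube c l ×ˢ Set.univ) := by
    ext x
    exact ⟨fun h => ⟨h, trivial⟩, fun h => h.1⟩
  have hGe : ∫ x in {x : Cf (m + 1) | x k ∈ cube c l}, G x =
      ∫ x in {x : Cf (m + 1) | x k ∈ cube c l},
        (fun z : R3 × (Fin m → R3) => G (k.insertNth z.1 z.2))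
          (MeasurableEquiv.piFinSuccAbove (fun _ : Fin (m + 1) => R3) k x) := by
    congr 1
    funext x
    exact (congrArg G ((MeasurableEquiv.piFinSuccAbove (fun _ : Fin (m + 1) => R3)
        k).symm_apply_apply x)).symm
  have h2 := mp.setIntegral_preimage_emb
    (MeasurableEquiv.piFinSuccAbove (fun _ : Fin (m + 1) => R3) k).measurableEmbedding
    (fun z : R3 × (Fin m → R3) => G (k.insertNth z.1 z.2)) (cube c l ×ˢ Set.univ)
  rw [hGe, hset]
  refine h2.trans ?_
  rw [Measure.volume_eq_prod, ← Measure.prod_restrict, Measure.restrict_univ,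
    integral_prod_symm _ hG]

/-- the row POI, with parentheses around the first integral on the right -/
theorem poi_correct (n : ℕ) (k : Fin n) (v : Cf n → ℝ) (c : R3) (l : ℝ)
    (hv : ContDiff ℝ (⊤ : ℕ∞) v) (hs : HasCompactSupport v) (hl : 0 < l) :
    ∫ x in {x : Cf n | x k ∈ cube c l}, v x ^ 2 ≤
      (∫ x in {x : Cf n | x k ∈ cube c l}, av k c l v x ^ 2) +
        l ^ 2 * ∫ x in {x : Cf n | x k ∈ cube c l}, ∑ i, dv k i v x ^ 2 := by
  cases n with
  | zero => exact k.elim0
  | succ m =>
  have hfin : IsFiniteMeasure ((volume : Measure R3).restrict (cube c l)) := by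
    constructor
    rw [Measure.restrict_apply_univ]
    exact (measure_mono (poi_cube_sub c l)).trans_lt isCompact_Icc.measure_lt_top
  have hins : Continuous (fun z : R3 × (Fin m → R3) => (k.insertNth z.1 z.2 : Cf (m + 1))) :=
    Continuous.finInsertNth k continuous_fst continuous_snd
  -- the average
  have hAc : Continuous (fun β : Fin m → R3 => ∫ y in cube c l, v (k.insertNth y β)) := by
    have e : (fun β : Fin m → R3 => ∫ y in cube c l, v (k.insertNth y β)) =
        fun β : Fin m → R3 => ∫ a in c 0..(c 0 + l), ∫ b in c 1..(c 1 + l),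
          ∫ d in c 2..(c 2 + l), v (k.insertNth ![a, b, d] β) := by
      funext β
      exact poi_cube c l hl _ (hv.continuous.comp
        (Continuous.finInsertNth k continuous_id continuous_const))
    rw [e]
    have k0 : Continuous (fun q : (((Fin m → R3) × ℝ) × ℝ) × ℝ =>
        v (k.insertNth ![q.1.1.2, q.1.2, q.2] q.1.1.1)) := by
      apply hv.continuous.comp
      apply Continuous.finInsertNth k
      · exact poi_vec_cont.comp (Continuous.prodMk
          (continuous_snd.comp (continuous_fst.comp continuous_fst))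
          (Continuous.prodMk (continuous_snd.comp continuous_fst) continuous_snd))
      · exact continuous_fst.comp (continuous_fst.comp continuous_fst)
    have k1 := poi_cpi (fun (q : ((Fin m → R3) × ℝ) × ℝ) d =>
      v (k.insertNth ![q.1.2, q.2, d] q.1.1)) k0 (c 2) (c 2 + l)
    have k2 := poi_cpi (fun (q : (Fin m → R3) × ℝ) b => ∫ d in c 2..(c 2 + l),
      v (k.insertNth ![q.2, b, d] q.1)) k1 (c 1) (c 1 + l)
    exact poi_cpi (fun (β : Fin m → R3) a => ∫ b in c 1..(c 1 + l), ∫ d in c 2..(c 2 + l),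
      v (k.insertNth ![a, b, d] β)) k2 (c 0) (c 0 + l)
  have hAs : HasCompactSupport (fun β : Fin m → R3 => ∫ y in cube c l, v (k.insertNth y β)) := by
    have hproj : Continuous (fun x : Cf (m + 1) => fun j : Fin m => x (k.succAbove j)) :=
      continuous_pi fun j => continuous_apply _
    refine HasCompactSupport.intro (IsCompact.image hs hproj) ?_
    intro β hβ
    have h0 : ∀ y : R3, v (k.insertNth y β) = 0 := by
      intro y
      by_contra hne
      apply hβ
      refine ⟨k.insertNth y β, subset_tsupport v hne, ?_⟩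
      funext j
      show (k.insertNth y β : Cf (m + 1)) (k.succAbove j) = β j
      rw [Fin.insertNth_apply_succAbove]
    simp only [h0, integral_zero]
  have hAi : Integrable (fun β : Fin m → R3 =>
      ((l ^ 3)⁻¹ * ∫ y in cube c l, v (k.insertNth y β)) ^ 2) := by
    apply Continuous.integrable_of_hasCompactSupport
    · exact (continuous_const.mul hAc).pow 2
    · exact hAs.comp_left (g := fun t : ℝ => ((l ^ 3)⁻¹ * t) ^ 2) (by simp)
  have hav : ∀ (y : R3) (β : Fin m → R3), av k c l v (k.insertNth y β) =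
      (l ^ 3)⁻¹ * ∫ y in cube c l, v (k.insertNth y β) := by
    intro y β
    unfold av
    congr 2
    funext z
    rw [Fin.update_insertNth]
  -- integrability
  have i1 : Integrable (fun x : Cf (m + 1) => v x ^ 2) :=
    Continuous.integrable_of_hasCompactSupport (hv.continuous.pow 2)
      (hs.comp_left (g := fun t : ℝ => t ^ 2) (by simp))
  have i2 : Integrable (fun x : Cf (m + 1) => ∑ i, dv k i v x ^ 2) :=
    integrable_finsetSum _ fun i _ => Continuous.integrable_of_hasCompactSupport
      ((poi_dv_cont k i v hv).pow 2)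
      ((poi_dv_supp k i v hs).comp_left (g := fun t : ℝ => t ^ 2) (by simp))
  have j1 := poi_fub_int k _ i1 c l
  have j2 := poi_fub_int k _ i2 c l
  have j3 : Integrable (fun z : R3 × (Fin m → R3) => av k c l v (k.insertNth z.1 z.2) ^ 2)
      ((volume.restrict (cube c l)).prod volume) := by
    have e : (fun z : R3 × (Fin m → R3) => av k c l v (k.insertNth z.1 z.2) ^ 2) =
        fun z : R3 × (Fin m → R3) =>
          ((l ^ 3)⁻¹ * ∫ y in cube c l, v (k.insertNth y z.2)) ^ 2 := by
      funext z
      rw [hav]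
    rw [e]
    exact hAi.comp_snd (volume.restrict (cube c l))
  rw [poi_fub k (fun x => v x ^ 2) c l j1, poi_fub k (fun x => ∑ i, dv k i v x ^ 2) c l j2,
    poi_fub k (fun x => av k c l v x ^ 2) c l j3, ← integral_const_mul, ← integral_add j3.integral_prod_right
      (j2.integral_prod_right.const_mul (l ^ 2))]
  apply integral_mono j1.integral_prod_right
    (j3.integral_prod_right.add (j2.integral_prod_right.const_mul (l ^ 2)))
  intro β
  show ∫ y in cube c l, v (k.insertNth y β) ^ 2 ≤
    (∫ y in cube c l, av k c l v (k.insertNth y β) ^ 2) +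
      l ^ 2 * ∫ y in cube c l, ∑ i, dv k i v (k.insertNth y β) ^ 2
  have h := poi_fibre k v hv β c l hl
  have e : ∫ y in cube c l, av k c l v (k.insertNth y β) ^ 2 =
      (l⁻¹) ^ 3 * (∫ y in cube c l, v (k.insertNth y β)) ^ 2 := by
    simp only [hav]
    rw [poi_cube c l hl _ continuous_const]
    simp only [poi_const]
    field_simp
  rw [e]
  exact h

/-- the row POI -/
theorem st_POI : ST_POI := by
  refine ⟨1, one_pos, ?_⟩
  intro n k v c l hv hs hl
  rw [one_mul]
  exact poi_correct n k v c l hv hs hl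

end Pool.Agent.Helper25.PW
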